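import Pool.Agent.X297.PB.Law

/-!
# The logarithmic moment condition is not sharp for stacked random boxes

For every `d ≥ 2` there are a law of `X` on `{1, 2, …}` with `E log X = ∞` and a number
`p₀ ∈ (0, p_c(ℤ^d))` such that in the Stack Model for almost every environment `Λ` one has
`θ^Λ(p, q) = 0` for all `p ≤ p₀` and all `q < 1`. This is the negated form of Q1, in every dimension.

The law is `P(X = 2 ^ k) = 1 / ((k + 1) (k + 2))`. For almost every environment there are infinitely
many boxes of size `1`, on both sides, such that a box with distance `i` (in the order of the boxes)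
to the small box is small compared with the exponential of its distance to the small box in `ℤ ^ d`;
hence the probability of a connection around the small box in the edges of probability `p` is at
most `1/4`, while the finitely many edges of the small box in one horizontal section are closed with
positive probability, which is the same for all such boxes. The zero-one law for the existence of
infinite clusters shows that there are none.

Here `m = d - 1`, the vertices are the elements of `V m = (Fin m → ℤ) × ℤ`, and `(v, i)` is the edge
between `v` and `v + unit m i`.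
-/

open MeasureTheory ProbabilityTheory

universe u

namespace Pool.Agent.Results.MP_c59c01_pr.StackDisproof

open Pool.Agent.X297.PB

theorem result (m : ℕ) (_hm : 1 ≤ m) : ∃ μ : Measure ℕ, IsProbabilityMeasure μ ∧ μ {0} = 0 ∧
    ∫⁻ x, ENNReal.ofReal (Real.log x) ∂μ = ⊤ ∧ ∃ p₀ : ℝ, 0 < p₀ ∧ p₀ < pc m ∧
    ∀ (Ξ : Type u) [MeasurableSpace Ξ] (ν : Measure Ξ) [IsProbabilityMeasure ν]
      (X : ℤ → Ξ → ℕ), (∀ n, Measurable (X n)) → iIndepFun X ν → (∀ n, ν.map (X n) = μ) →
      ∀ᵐ a ∂ν, ∀ p q : ℝ, 0 ≤ p → p ≤ p₀ → 0 ≤ q → q < 1 →
        theta m (fun n => X n a) p q = 0 :=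
  ⟨law, main m⟩

end Pool.Agent.Results.MP_c59c01_pr.StackDisproof
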